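import Mathlib

/-!
# Basic notions for FC-families

Union-closed families, slices, the signed weight, weighted certificates (`Good`), and the final
step from a certificate to an abundant element.
-/

namespace N361.FC

open Finset

variable {α : Type*} [DecidableEq α]

/-- Union-closed families. -/
def UC (F : Finset (Finset α)) : Prop := ∀ A ∈ F, ∀ B ∈ F, A ∪ B ∈ F

/-- `F` is closed under adding `Q`. -/
def ClU (Q : Finset α) (F : Finset (Finset α)) : Prop := ∀ R ∈ F, R ∪ Q ∈ F

/-- The signed weight of a family on the ground set `V`. -/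
def AA (w : α → ℚ) (V : Finset α) (F : Finset (Finset α)) : ℚ :=
  ∑ R ∈ F, (2 * ∑ x ∈ R, w x - ∑ x ∈ V, w x)

/-- The slice of `F` over the trace `T`. -/
def slice (V : Finset α) (F : Finset (Finset α)) (T : Finset α) : Finset (Finset α) :=
  V.powerset.filter (fun R => R ∪ T ∈ F)

lemma mem_slice {V : Finset α} {F : Finset (Finset α)} {T R : Finset α} :
    R ∈ slice V F T ↔ R ⊆ V ∧ R ∪ T ∈ F := by simp [slice]

lemma slice_subset (V : Finset α) (F : Finset (Finset α)) (T : Finset α) :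
    slice V F T ⊆ V.powerset := filter_subset _ _

lemma slice_card_le (V : Finset α) (F : Finset (Finset α)) (T : Finset α) :
    (slice V F T).card ≤ 2 ^ V.card := by
  have := card_le_card (slice_subset V F T)
  rwa [card_powerset] at this

lemma sum_slice {M : Type*} [AddCommMonoid M] (V L : Finset α) (F : Finset (Finset α))
    (hd : Disjoint V L) (hF : ∀ S ∈ F, S ⊆ V ∪ L) (φ : Finset α → M) :
    ∑ S ∈ F, φ S = ∑ T ∈ L.powerset, ∑ R ∈ slice V F T, φ (R ∪ T) := by
  rw [← Finset.sum_fiberwise_of_maps_to (s := F) (t := L.powerset) (g := fun S => S ∩ L)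
    (fun S _ => by simp)]
  refine Finset.sum_congr rfl fun T hT => ?_
  rw [mem_powerset] at hT
  have key : ∀ S ∈ F, S ∩ L = T → S ∩ V ∪ T = S := by
    intro S hS hST
    have h := hF S hS
    ext x
    simp only [mem_union, mem_inter]
    constructor
    · rintro (⟨hx, _⟩ | hx)
      · exact hx
      · rw [← hST] at hx; exact (mem_inter.1 hx).1
    · intro hx
      rcases mem_union.1 (h hx) with hv | hl
      · exact Or.inl ⟨hx, hv⟩
      · right; rw [← hST]; exact mem_inter.2 ⟨hx, hl⟩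
  refine Finset.sum_bij' (fun S _ => S ∩ V) (fun R _ => R ∪ T) ?_ ?_ ?_ ?_ ?_
  · intro S hS
    rw [mem_filter] at hS
    rw [mem_slice, key S hS.1 hS.2]
    exact ⟨inter_subset_right, hS.1⟩
  · intro R hR
    rw [mem_slice] at hR
    rw [mem_filter]
    refine ⟨hR.2, ?_⟩
    have : R ∩ L = ∅ := by
      rw [← disjoint_iff_inter_eq_empty]
      exact disjoint_of_subset_left hR.1 hd
    show (R ∪ T) ∩ L = T
    rw [union_inter_distrib_right, this, empty_union, inter_eq_left.2 hT]
  · intro S hS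
    rw [mem_filter] at hS
    exact key S hS.1 hS.2
  · intro R hR
    rw [mem_slice] at hR
    have : T ∩ V = ∅ := by
      rw [← disjoint_iff_inter_eq_empty]
      exact (disjoint_of_subset_right hT hd).symm
    show (R ∪ T) ∩ V = R
    rw [union_inter_distrib_right, this, union_empty, inter_eq_left.2 hR.1]
  · intro S hS
    rw [mem_filter] at hS
    show φ S = φ (S ∩ V ∪ T)
    rw [key S hS.1 hS.2]

lemma slice_union {V : Finset α} {F : Finset (Finset α)} (hF : UC F) {T T' R R' : Finset α}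
    (hR : R ∈ slice V F T) (hR' : R' ∈ slice V F T') : R ∪ R' ∈ slice V F (T ∪ T') := by
  rw [mem_slice] at *
  refine ⟨union_subset hR.1 hR'.1, ?_⟩
  have := hF _ hR.2 _ hR'.2
  rwa [union_union_union_comm] at this

lemma slice_UC {V : Finset α} {F : Finset (Finset α)} (hF : UC F) (T : Finset α) :
    UC (slice V F T) := by
  intro A hA B hB
  have := slice_union hF hA hB
  rwa [union_self] at this

lemma slice_ClU {V : Finset α} {F : Finset (Finset α)} {Q : Finset α} (hQ : Q ⊆ V)
    (hF : ClU Q F) (T : Finset α) : ClU Q (slice V F T) := by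
  intro R hR
  rw [mem_slice] at *
  refine ⟨union_subset hR.1 hQ, ?_⟩
  have := hF _ hR.2
  rwa [union_right_comm] at this

/-- A weighted certificate with strictness. -/
structure Good (V : Finset α) (w : α → ℚ) (𝒬 : Finset (Finset α)) (δ : ℚ) : Prop where
  wpos : ∀ x ∈ V, 0 < w x
  wle : ∀ x ∈ V, w x ≤ 1
  dpos : 0 < δ
  dle : δ ≤ 1
  ne : 𝒬.Nonempty
  sup : V = 𝒬.biUnion id
  nonneg : ∀ F : Finset (Finset α), (∀ R ∈ F, R ⊆ V) → UC F → (∀ Q ∈ 𝒬, ClU Q F) → 0 ≤ AA w V F
  pos : ∀ F : Finset (Finset α), (∀ R ∈ F, R ⊆ V) → UC F → (∀ Q ∈ 𝒬, ClU Q F) → F.Nonempty →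
    ∅ ∉ F → δ ≤ AA w V F

lemma Good.sub {V : Finset α} {w : α → ℚ} {𝒬 : Finset (Finset α)} {δ : ℚ}
    (h : Good V w 𝒬 δ) {Q : Finset α} (hQ : Q ∈ 𝒬) : Q ⊆ V := by
  rw [h.sup]
  exact subset_biUnion_of_mem id hQ

/-- The base certificate: a single set of size at most two. -/
lemma good_base (g : Finset α) (hg : g.card ≤ 2) : Good g (fun _ => 1) {g} 1 := by
  have hsz : ∀ R : Finset α, R ⊆ g → R ≠ ∅ →
      (0 : ℚ) ≤ 2 * ∑ x ∈ R, (1 : ℚ) - ∑ x ∈ g, (1 : ℚ) := by
    intro R hR hne
    have h1 : 1 ≤ R.card := card_pos.2 (nonempty_of_ne_empty hne)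
    simp only [sum_const, nsmul_eq_mul, mul_one]
    have h1' : (1 : ℚ) ≤ R.card := by exact_mod_cast h1
    have h2' : (g.card : ℚ) ≤ 2 := by exact_mod_cast hg
    linarith
  refine ⟨fun _ _ => one_pos, fun _ _ => le_refl _, one_pos, le_refl _, singleton_nonempty _,
    by simp, ?_, ?_⟩
  · intro F hF _ hcl
    have hcl := hcl g (mem_singleton_self g)
    by_cases h0 : (∅ : Finset α) ∈ F
    · by_cases hg0 : g = ∅
      · subst hg0
        have : ∀ R ∈ F, (2 * ∑ x ∈ R, (1 : ℚ) - ∑ x ∈ (∅ : Finset α), (1 : ℚ)) = 0 := by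
          intro R hR
          have := subset_empty.1 (hF R hR)
          subst this; simp
        unfold AA
        rw [sum_congr rfl this]
        simp
      · have hgF : g ∈ F := by have := hcl _ h0; rwa [empty_union] at this
        unfold AA
        rw [← Finset.add_sum_erase _ _ h0]
        have hg' : g ∈ F.erase ∅ := mem_erase.2 ⟨hg0, hgF⟩
        rw [← Finset.add_sum_erase _ _ hg']
        have hrest : 0 ≤ ∑ x ∈ (F.erase ∅).erase g, (2 * ∑ x ∈ x, (1 : ℚ) - ∑ x ∈ g, (1 : ℚ)) := by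
          apply sum_nonneg
          intro R hR
          rw [mem_erase, mem_erase] at hR
          exact hsz R (hF R hR.2.2) hR.2.1
        simp only [sum_empty]
        linarith
    · unfold AA
      apply sum_nonneg
      intro R hR
      exact hsz R (hF R hR) (fun h => h0 (h ▸ hR))
  · intro F hF _ hcl hne h0
    have hcl := hcl g (mem_singleton_self g)
    obtain ⟨R, hR⟩ := hne
    have hgF : g ∈ F := by
      have := hcl _ hR
      rwa [union_eq_right.2 (hF R hR)] at this
    have hg0 : g ≠ ∅ := fun h => h0 (h ▸ hgF)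
    have h1 : 1 ≤ g.card := card_pos.2 (nonempty_of_ne_empty hg0)
    have h1' : (1 : ℚ) ≤ g.card := by exact_mod_cast h1
    unfold AA
    rw [← Finset.add_sum_erase _ _ hgF]
    have hrest : 0 ≤ ∑ x ∈ F.erase g, (2 * ∑ x ∈ x, (1 : ℚ) - ∑ x ∈ g, (1 : ℚ)) := by
      apply sum_nonneg
      intro R hR
      rw [mem_erase] at hR
      exact hsz R (hF R hR.2) (fun h => h0 (h ▸ hR.2))
    simp only [sum_const, nsmul_eq_mul, mul_one] at hrest ⊢
    linarith

/-- From a certificate contained in `F` to an abundant element. -/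
lemma Good.abundant {V : Finset α} {w : α → ℚ} {𝒬 : Finset (Finset α)} {δ : ℚ}
    (h : Good V w 𝒬 δ) (hV : V.Nonempty) {F : Finset (Finset α)} (hF : UC F) (hQ : 𝒬 ⊆ F) :
    ∃ x ∈ V, F.card ≤ 2 * (F.filter (fun S => x ∈ S)).card := by
  classical
  set L : Finset α := (F.biUnion id) \ V with hL
  have hd : Disjoint V L := disjoint_sdiff
  have hsub : ∀ S ∈ F, S ⊆ V ∪ L := by
    intro S hS x hx
    by_cases hxV : x ∈ V
    · exact mem_union_left _ hxV
    · exact mem_union_right _ (mem_sdiff.2 ⟨mem_biUnion.2 ⟨S, hS, hx⟩, hxV⟩)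
  have hsum := sum_slice V L F hd hsub
    (fun S => 2 * ∑ x ∈ S ∩ V, w x - ∑ x ∈ V, w x)
  have hnn : 0 ≤ ∑ S ∈ F, (2 * ∑ x ∈ S ∩ V, w x - ∑ x ∈ V, w x) := by
    rw [hsum]
    apply sum_nonneg
    intro T hT
    rw [mem_powerset] at hT
    have hTV : T ∩ V = ∅ := by
      rw [← disjoint_iff_inter_eq_empty]
      exact (disjoint_of_subset_right hT hd).symm
    have e : ∑ R ∈ slice V F T, (2 * ∑ x ∈ (R ∪ T) ∩ V, w x - ∑ x ∈ V, w x) =
        AA w V (slice V F T) := by
      unfold AA
      refine sum_congr rfl fun R hR => ?_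
      rw [mem_slice] at hR
      rw [union_inter_distrib_right, hTV, union_empty, inter_eq_left.2 hR.1]
    rw [e]
    exact h.nonneg _ (fun R hR => (mem_slice.1 hR).1) (slice_UC hF T)
      (fun Q hq => slice_ClU (h.sub hq) (fun R hR => hF _ hR _ (hQ hq)) T)
  by_contra hcon
  push Not at hcon
  have hx : ∀ x ∈ V, (2 * ((F.filter (fun S => x ∈ S)).card : ℚ) - F.card) < 0 := by
    intro x hx
    have := hcon x hx
    have h2 : (2 * ((F.filter (fun S => x ∈ S)).card : ℚ)) < F.card := by exact_mod_cast this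
    linarith
  have hneg : ∑ x ∈ V, w x * (2 * ((F.filter (fun S => x ∈ S)).card : ℚ) - F.card) < 0 := by
    apply sum_neg' 
    · intro x hxV
      exact (mul_neg_of_pos_of_neg (h.wpos x hxV) (hx x hxV)).le
    · obtain ⟨x, hxV⟩ := hV
      exact ⟨x, hxV, mul_neg_of_pos_of_neg (h.wpos x hxV) (hx x hxV)⟩
  have heq : ∑ S ∈ F, (2 * ∑ x ∈ S ∩ V, w x - ∑ x ∈ V, w x) =
      ∑ x ∈ V, w x * (2 * ((F.filter (fun S => x ∈ S)).card : ℚ) - F.card) := by
    have e1 : ∀ S ∈ F, (2 * ∑ x ∈ S ∩ V, w x - ∑ x ∈ V, w x) =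
        ∑ x ∈ V, (2 * (if x ∈ S then w x else 0) - w x) := by
      intro S _
      rw [sum_sub_distrib, ← mul_sum]
      congr 2
      rw [← sum_filter]
      congr 1
      ext x
      simp only [mem_inter, mem_filter]
      tauto
    rw [sum_congr rfl e1, sum_comm]
    refine sum_congr rfl fun x _ => ?_
    rw [sum_sub_distrib, ← mul_sum, ← sum_filter]
    simp only [sum_const, nsmul_eq_mul]
    ring
  linarith

end N361.FC
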